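import Pool.Agent.Lib.P6aeb5f.Final
import Pool.Agent.Lib.P6aeb5f.Core

/-!
Consistency of `cov(M) < od` with ZFC.
-/

namespace Pool.Agent.Results.MP_6aeb5f_lc.CovMLtOd

open Pool.Agent.Lib.BVM Pool.Agent.Lib.P6aeb5f

/-- There is a model of ZFC in which `cov(M) < od`. -/
theorem result : ∃ (M : Type 1) (E : M → M → Prop), ModelZFC M E ∧ CovLtOd E := by
  obtain ⟨B, _, _, K, L, cyl, e, h1, h2, h3, h4⟩ := exists_algebra
  exact exists_model B K L cyl e h1 h2 h3 h4

end Pool.Agent.Results.MP_6aeb5f_lc.CovMLtOd
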